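import Mathlib
import Pool.Agent.H97R2.BP.Defs
import Pool.Agent.H97R2.BP.Defs2

/-! Task INF (helper415). -/

open scoped ComplexOrder InnerProductSpace ComplexConjugate TensorProduct
open Finset H759R2.Kad H710R2.DP

noncomputable section

namespace H97R2.BP

namespace ZZ415

variable {H : Type} [NormedAddCommGroup H] [InnerProductSpace ℂ H] [CompleteSpace H]

/-- powers of an isometry of the piece -/
lemma pow_iso {p s : H →L[ℂ] H} (hs : star s * s = p) (hc : p * s = s * p) :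
    ∀ (i : ℕ) (x : H →L[ℂ] H), p * x = x → star (s ^ i) * (s ^ i * x) = x := by
  intro i
  induction i with
  | zero =>
    intro x _
    simp
  | succ i ih =>
    intro x hx
    have h1 : p * (s ^ i * x) = s ^ i * x := by
      have h2 : Commute p (s ^ i) := Commute.pow_right hc i
      rw [← mul_assoc, h2.eq, mul_assoc, hx]
    rw [pow_succ', star_mul, mul_assoc, mul_assoc, ← mul_assoc (star s) s, hs, h1]
    exact ih x hx

lemma shift_orth {p s t : H →L[ℂ] H} (hs : star s * s = p) (ht : star t * t = p)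
    (hst : star s * t = 0) (hc : p * s = s * p) (hpt : p * t = t) (i j : ℕ) :
    star (s ^ i * t) * (s ^ j * t) = if i = j then p else 0 := by
  have hts : star t * s = 0 := by
    have h := congrArg star hst
    rwa [star_mul, star_star, star_zero] at h
  have hlt : ∀ i d : ℕ, star (s ^ i * t) * (s ^ (i + (d + 1)) * t) = 0 := by
    intro i d
    have h1 : p * (s ^ (d + 1) * t) = s ^ (d + 1) * t := by
      have h2 : Commute p (s ^ (d + 1)) := Commute.pow_right hc (d + 1)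
      rw [← mul_assoc, h2.eq, mul_assoc, hpt]
    rw [star_mul, pow_add, mul_assoc, mul_assoc, pow_iso hs hc i _ h1, pow_succ', mul_assoc,
      ← mul_assoc, hts, zero_mul]
  rcases lt_trichotomy i j with h | h | h
  · rw [if_neg (by omega)]
    obtain ⟨d, rfl⟩ : ∃ d, j = i + (d + 1) := ⟨j - i - 1, by omega⟩
    exact hlt i d
  · subst h
    rw [if_pos rfl, star_mul, mul_assoc, pow_iso hs hc i t hpt, ht]
  · rw [if_neg (by omega)]
    obtain ⟨d, rfl⟩ : ∃ d, i = j + (d + 1) := ⟨i - j - 1, by omega⟩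
    have h1 := congrArg star (hlt j d)
    rwa [star_mul, star_star, star_zero] at h1

/-- lower semicontinuity of sums of squares of norms -/
lemma lsc {I : Type} {U : Filter I} [U.NeBot] {ι : Type} [Fintype ι] (A : I → ι → H) (v : ι → H)
    (B : I → ℝ) (b : ℝ)
    (h1 : ∀ i, ∀ η : H, Filter.Tendsto (fun L => ⟪η, A L i⟫_ℂ) U (nhds ⟪η, v i⟫_ℂ))
    (h2 : ∀ L, ∑ i, ‖A L i‖ ^ 2 ≤ B L) (h3 : Filter.Tendsto B U (nhds b)) :
    ∑ i, ‖v i‖ ^ 2 ≤ b := by
  have h4 : Filter.Tendsto (fun L => ∑ i, (⟪v i, A L i⟫_ℂ).re) U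
      (nhds (∑ i, (⟪v i, v i⟫_ℂ).re)) := by
    apply tendsto_finsetSum
    intro i _
    exact (Complex.continuous_re.tendsto _).comp (h1 i (v i))
  have h5 : ∑ i, (⟪v i, v i⟫_ℂ).re = ∑ i, ‖v i‖ ^ 2 := by
    apply Finset.sum_congr rfl
    intro i _
    rw [inner_self_eq_norm_sq_to_K]
    norm_cast
  rw [h5] at h4
  have h6 : Filter.Tendsto (fun L => (∑ i, ‖v i‖ ^ 2 + B L) / 2) U
      (nhds ((∑ i, ‖v i‖ ^ 2 + b) / 2)) := (h3.const_add _).div_const 2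
  have h7 := le_of_tendsto_of_tendsto h4 h6 (Filter.Eventually.of_forall fun L => by
    have h8 : ∑ i, (⟪v i, A L i⟫_ℂ).re ≤ ∑ i, (‖v i‖ ^ 2 + ‖A L i‖ ^ 2) / 2 := by
      apply Finset.sum_le_sum
      intro i _
      have h9 : (⟪v i, A L i⟫_ℂ).re ≤ ‖v i‖ * ‖A L i‖ := re_inner_le_norm (𝕜 := ℂ) _ _
      nlinarith [sq_nonneg (‖v i‖ - ‖A L i‖)]
    have h10 : ∑ i, (‖v i‖ ^ 2 + ‖A L i‖ ^ 2) / 2 = (∑ i, ‖v i‖ ^ 2 + ∑ i, ‖A L i‖ ^ 2) / 2 := by
      rw [← Finset.sum_div, Finset.sum_add_distrib]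
    rw [h10] at h8
    have h11 := h2 L
    simp only
    linarith)
  linarith

lemma colB_triv {ι : Type} [Fintype ι] (y : ι → (H →L[ℂ] H)) : ColB y (∑ i, ‖y i‖ ^ 2) := by
  intro η
  rw [Finset.sum_mul]
  apply Finset.sum_le_sum
  intro i _
  rw [← mul_pow]
  exact pow_le_pow_left₀ (norm_nonneg _) ((y i).le_opNorm η) 2

end ZZ415

open ZZ415 in
theorem bp_inf (h1 : Z_corner) (h2 : Z_ulim) : Z_inf := by
  intro H _ _ _ M P c hc hP p s₁ s₂ hp hs₁ hs₂ h11 h22 h12 hp1 hp2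
  have hcen : ∀ a ∈ M, p * a = a * p := hp.2.2
  -- the projections of the corners
  have hcorner : ∀ L : ℕ, ∃ R : (H →L[ℂ] H) →ₗ[ℂ] M.toStarSubalgebra,
      (∀ x, ‖R x‖ ≤ c * ‖x‖ ∧ p * (R x : H →L[ℂ] H) = R x ∧ (R x : H →L[ℂ] H) * p = R x) ∧
      (∀ m ∈ M, p * m = m → m * p = m → (R m : H →L[ℂ] H) = m) ∧
      ∀ (K : Type) [NormedAddCommGroup K] [InnerProductSpace ℂ K] [CompleteSpace K]
        (π : M.toStarSubalgebra →⋆ₐ[ℂ] (K →L[ℂ] K)) (Ω : K) (ι : Type) [Fintype ι]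
        (y : ι → (H →L[ℂ] H)) (c₁ c₂ : ℝ), 0 ≤ c₁ → 0 ≤ c₂ → ColB y c₁ →
        ColB (fun i => star (y i)) c₂ →
        ∑ i, ‖π (R (y i)) Ω‖ ^ 2 ≤ 3 * c ^ 2 * (c₁ + c₂ / (L + 1)) * ‖Ω‖ ^ 2 ∧
        ∑ i, ‖star (π (R (y i))) Ω‖ ^ 2 ≤ 3 * c ^ 2 * (c₂ + c₁ / (L + 1)) * ‖Ω‖ ^ 2 := by
    intro L
    refine h1 H M P c hc hP L (fun i => s₁ ^ (i : ℕ) * s₂) p hp.1 (fun i => ?_) (fun i j => ?_)
    · exact mul_mem (pow_mem hs₁ _) hs₂
    · rw [shift_orth h11 h22 h12 (hcen s₁ hs₁) hp2]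
      simp only [Fin.ext_iff]
  choose R hR1 hR2 hR3 using hcorner
  -- the ultrafilter
  let U : Ultrafilter ℕ := Ultrafilter.of Filter.atTop
  have hU : (U : Filter ℕ) ≤ Filter.atTop := Ultrafilter.of_le _
  have hlim : ∀ x : H →L[ℂ] H, ∃ S : H →L[ℂ] H, ‖S‖ ≤ c * ‖x‖ ∧ ∀ ξ η : H,
      Filter.Tendsto (fun L => ⟪η, (R L x : H →L[ℂ] H) ξ⟫_ℂ) U (nhds ⟪η, S ξ⟫_ℂ) := by
    intro x
    exact h2 H ℕ U (fun L => (R L x : H →L[ℂ] H)) (c * ‖x‖) (fun L => (hR1 L x).1)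
  choose S hS1 hS2 using hlim
  have huniq : ∀ (T : ℕ → (H →L[ℂ] H)) (A B : H →L[ℂ] H),
      (∀ ξ η : H, Filter.Tendsto (fun L => ⟪η, T L ξ⟫_ℂ) U (nhds ⟪η, A ξ⟫_ℂ)) →
      (∀ ξ η : H, Filter.Tendsto (fun L => ⟪η, T L ξ⟫_ℂ) U (nhds ⟪η, B ξ⟫_ℂ)) → A = B := by
    intro T A B hA hB
    ext ξ
    refine ext_inner_left ℂ fun η => ?_
    exact tendsto_nhds_unique (hA ξ η) (hB ξ η)
  have hadd : ∀ x y, S (x + y) = S x + S y := by
    intro x y
    refine huniq (fun L => (R L (x + y) : H →L[ℂ] H)) _ _ (hS2 (x + y)) fun ξ η => ?_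
    have h := (hS2 x ξ η).add (hS2 y ξ η)
    have e1 : (fun L => ⟪η, (R L (x + y) : H →L[ℂ] H) ξ⟫_ℂ) =
        fun L => ⟪η, (R L x : H →L[ℂ] H) ξ⟫_ℂ + ⟪η, (R L y : H →L[ℂ] H) ξ⟫_ℂ := by
      funext L
      rw [map_add, ← inner_add_right]
      rfl
    rw [e1, ContinuousLinearMap.add_apply, inner_add_right]
    exact h
  have hsmul : ∀ (k : ℂ) x, S (k • x) = k • S x := by
    intro k x
    refine huniq (fun L => (R L (k • x) : H →L[ℂ] H)) _ _ (hS2 (k • x)) fun ξ η => ?_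
    have h := (hS2 x ξ η).const_mul k
    have e1 : (fun L => ⟪η, (R L (k • x) : H →L[ℂ] H) ξ⟫_ℂ) =
        fun L => k * ⟪η, (R L x : H →L[ℂ] H) ξ⟫_ℂ := by
      funext L
      rw [map_smul, ← inner_smul_right]
      rfl
    rw [e1, ContinuousLinearMap.smul_apply, inner_smul_right]
    exact h
  let T : (H →L[ℂ] H) →ₗ[ℂ] (H →L[ℂ] H) :=
    { toFun := S, map_add' := hadd, map_smul' := hsmul }
  have hTS : ∀ x, T x = S x := fun _ => rfl
  -- the limits of the adjoints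
  have hstar : ∀ (x : H →L[ℂ] H) (ξ η : H),
      Filter.Tendsto (fun L => ⟪η, star (R L x : H →L[ℂ] H) ξ⟫_ℂ) U
        (nhds ⟪η, star (S x) ξ⟫_ℂ) := by
    intro x ξ η
    have h := (Complex.continuous_conj.tendsto _).comp (hS2 x η ξ)
    have e1 : (fun L => ⟪η, star (R L x : H →L[ℂ] H) ξ⟫_ℂ) =
        (starRingEnd ℂ) ∘ fun L => ⟪ξ, (R L x : H →L[ℂ] H) η⟫_ℂ := by
      funext L
      rw [Function.comp, inner_conj_symm, ContinuousLinearMap.star_eq_adjoint,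
        ContinuousLinearMap.adjoint_inner_right]
    rw [e1, ContinuousLinearMap.star_eq_adjoint, ContinuousLinearMap.adjoint_inner_right,
      ← inner_conj_symm]
    exact h
  have hB : ∀ a b z : ℝ, Filter.Tendsto (fun L : ℕ => 3 * c ^ 2 * (a + b / ((L : ℝ) + 1)) * z)
      (U : Filter ℕ) (nhds (3 * c ^ 2 * a * z)) := by
    intro a b z
    have h3 : Filter.Tendsto (fun L : ℕ => b / ((L : ℝ) + 1)) Filter.atTop (nhds 0) :=
      tendsto_const_div_atTop_nhds_zero_nat b |>.comp (Filter.tendsto_add_atTop_nat 1) |>.congr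
        fun L => by simp
    have h4 := ((h3.const_add a).const_mul (3 * c ^ 2)).mul_const z
    rw [add_zero] at h4
    exact h4.mono_left hU
  refine ⟨T, fun x => ⟨?_, ?_⟩, ?_, ?_⟩
  · -- membership, by the double commutant theorem
    rw [hTS, ← M.commutant_commutant, VonNeumannAlgebra.mem_commutant_iff]
    intro t ht
    have htm : ∀ L, t * (R L x : H →L[ℂ] H) = (R L x : H →L[ℂ] H) * t := by
      intro L
      rw [VonNeumannAlgebra.mem_commutant_iff] at ht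
      exact (ht _ (R L x).2).symm
    refine huniq (fun L => t * (R L x : H →L[ℂ] H)) _ _ (fun ξ η => ?_) (fun ξ η => ?_)
    · have h := hS2 x ξ (star t η)
      have e1 : (fun L => ⟪η, (t * (R L x : H →L[ℂ] H)) ξ⟫_ℂ) =
          fun L => ⟪star t η, (R L x : H →L[ℂ] H) ξ⟫_ℂ := by
        funext L
        rw [ContinuousLinearMap.star_eq_adjoint, ContinuousLinearMap.adjoint_inner_left]
        rfl
      have e2 : ⟪η, (t * S x) ξ⟫_ℂ = ⟪star t η, S x ξ⟫_ℂ := by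
        rw [ContinuousLinearMap.star_eq_adjoint, ContinuousLinearMap.adjoint_inner_left]
        rfl
      rw [e1, e2]
      exact h
    · have h := hS2 x (t ξ) η
      have e1 : (fun L => ⟪η, (t * (R L x : H →L[ℂ] H)) ξ⟫_ℂ) =
          fun L => ⟪η, (R L x : H →L[ℂ] H) (t ξ)⟫_ℂ := by
        funext L
        rw [htm L]
        rfl
      rw [e1]
      exact h
  · refine huniq (fun L => (R L x : H →L[ℂ] H)) _ _ (fun ξ η => ?_) (hS2 x)
    have h := hS2 x ξ (star p η)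
    have e1 : (fun L => ⟪η, (R L x : H →L[ℂ] H) ξ⟫_ℂ) =
        fun L => ⟪star p η, (R L x : H →L[ℂ] H) ξ⟫_ℂ := by
      funext L
      rw [ContinuousLinearMap.star_eq_adjoint, ContinuousLinearMap.adjoint_inner_left]
      conv_lhs => rw [← (hR1 L x).2.1]
      rfl
    have e2 : ⟪η, (p * T x) ξ⟫_ℂ = ⟪star p η, S x ξ⟫_ℂ := by
      rw [ContinuousLinearMap.star_eq_adjoint, ContinuousLinearMap.adjoint_inner_left]
      rfl
    rw [e1, e2]
    exact h
  · intro m hm hpm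
    have hmp : m * p = m := by rw [← hcen m hm, hpm]
    refine huniq (fun L => (R L m : H →L[ℂ] H)) _ _ (hS2 m) fun ξ η => ?_
    have e1 : (fun L => ⟪η, (R L m : H →L[ℂ] H) ξ⟫_ℂ) = fun _ => ⟪η, m ξ⟫_ℂ := by
      funext L
      rw [hR2 L m hm hpm hmp]
    rw [e1]
    exact tendsto_const_nhds
  · intro ι _ y r hr ζ
    constructor
    · intro hy
      have h3 : ∀ L : ℕ, ∑ i, ‖(R L (y i) : H →L[ℂ] H) ζ‖ ^ 2 ≤
          3 * c ^ 2 * (r + (∑ i, ‖star (y i)‖ ^ 2) / ((L : ℝ) + 1)) * ‖ζ‖ ^ 2 := by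
        intro L
        exact (hR3 L H (inc M) ζ ι y r (∑ i, ‖star (y i)‖ ^ 2) hr
          (Finset.sum_nonneg fun i _ => sq_nonneg _) hy (colB_triv fun i => star (y i))).1
      exact lsc (U := (U : Filter ℕ)) (fun L i => (R L (y i) : H →L[ℂ] H) ζ)
        (fun i => T (y i) ζ) _ _ (fun i η => hS2 (y i) ζ η) h3 (hB _ _ _)
    · intro hy
      have h3 : ∀ L : ℕ, ∑ i, ‖star (R L (y i) : H →L[ℂ] H) ζ‖ ^ 2 ≤
          3 * c ^ 2 * (r + (∑ i, ‖y i‖ ^ 2) / ((L : ℝ) + 1)) * ‖ζ‖ ^ 2 := by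
        intro L
        exact (hR3 L H (inc M) ζ ι y (∑ i, ‖y i‖ ^ 2) r
          (Finset.sum_nonneg fun i _ => sq_nonneg _) hr (colB_triv y) hy).2
      exact lsc (U := (U : Filter ℕ)) (fun L i => star (R L (y i) : H →L[ℂ] H) ζ)
        (fun i => star (T (y i)) ζ) _ _ (fun i η => hstar (y i) ζ η) h3 (hB _ _ _)

end H97R2.BP
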